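import Mathlib
import Pool.Agent.Helper17.Herglotz
import Pool.Agent.Helper35.AG.TraceM
import Pool.Agent.Helper16.SAG.Trace

/-!
# Components of a product of traces

If `φ ψ = a χ + (1 - a) χ'` with `a > 0` then the measure of `χ` is at most `1 / a` times the
convolution of the measures of `φ` and `ψ`.
-/

set_option autoImplicit false

open MeasureTheory Filter Topology Helper17.FU Helper17.FUGroup Helper91.TTT
open scoped ENNReal

namespace Helper16.CG

open Helper35.AG (conv)

/-- Components of a product of traces. -/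
theorem le_of_comp {G : Type*} [Group G] {τ : G} {φ ψ χ χ' : G → ℂ} (hχ' : χ' ∈ TR G)
    {a : ℝ} (h0 : 0 < a) (h1 : a ≤ 1) (h : φ * ψ = a • χ + (1 - a) • χ')
    {μ ν lam : Measure (AddCircle (1 : ℝ))} [IsProbabilityMeasure μ] [IsProbabilityMeasure ν]
    [IsProbabilityMeasure lam]
    (hμ : ∀ n : ℤ, ∫ x, (fourier n x : ℂ) ∂μ = φ (τ ^ n))
    (hν : ∀ n : ℤ, ∫ x, (fourier n x : ℂ) ∂ν = ψ (τ ^ n))
    (hl : ∀ n : ℤ, ∫ x, (fourier n x : ℂ) ∂lam = χ (τ ^ n)) :
    lam ≤ (ENNReal.ofReal a)⁻¹ • conv μ ν := by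
  have hφ1 : χ' 1 = 1 := hχ'.1
  have hF : Fact (PD χ') := ⟨hχ'.2.2⟩
  obtain ⟨lam', hp', hl''⟩ := Helper17.Herglotz.herglotz (rf_pdz (φ := χ') τ 1)
    (by unfold rf; simp [hφ1])
  have hl' : ∀ n : ℤ, ∫ x, (fourier n x : ℂ) ∂lam' = χ' (τ ^ n) := by
    intro n
    rw [hl'' n]; unfold rf; rw [one_mul]
  have hcp : IsProbabilityMeasure (conv μ ν) := by
    unfold conv
    exact Measure.isProbabilityMeasure_map (by fun_prop)
  have hsm : IsFiniteMeasure (ENNReal.ofReal a • lam + ENNReal.ofReal (1 - a) • lam') := by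
    have h1 : IsFiniteMeasure (ENNReal.ofReal a • lam) := Measure.smul_finite _ ENNReal.ofReal_ne_top
    have h2 : IsFiniteMeasure (ENNReal.ofReal (1 - a) • lam') :=
      Measure.smul_finite _ ENNReal.ofReal_ne_top
    infer_instance
  have hint : ∀ (ρ : Measure (AddCircle (1 : ℝ))) [IsFiniteMeasure ρ] (n : ℤ),
      Integrable (fun x => (fourier n x : ℂ)) ρ := by
    intro ρ _ n
    exact (fourier n).continuous.integrable_of_hasCompactSupport (HasCompactSupport.of_compactSpace _)
  have heq : conv μ ν = ENNReal.ofReal a • lam + ENNReal.ofReal (1 - a) • lam' := by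
    apply Helper17.TranslM.eq_of_fourier
    intro n
    rw [Helper16.SAG.fourier_conv, hμ, hν,
      integral_add_measure ((hint lam n).smul_measure ENNReal.ofReal_ne_top)
        ((hint lam' n).smul_measure ENNReal.ofReal_ne_top),
      integral_smul_measure, integral_smul_measure, hl, hl',
      ENNReal.toReal_ofReal h0.le, ENNReal.toReal_ofReal (by linarith)]
    have h3 := congrFun h (τ ^ n)
    simpa using h3
  have ha0 : ENNReal.ofReal a ≠ 0 := by
    rw [Ne, ENNReal.ofReal_eq_zero]
    linarith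
  have hle : ENNReal.ofReal a • lam ≤ conv μ ν := by
    rw [heq]
    exact Measure.le_add_right le_rfl
  calc lam = (ENNReal.ofReal a)⁻¹ • (ENNReal.ofReal a • lam) := by
        rw [smul_smul, ENNReal.inv_mul_cancel ha0 ENNReal.ofReal_ne_top, one_smul]
    _ ≤ (ENNReal.ofReal a)⁻¹ • conv μ ν := by
        intro A
        simp only [Measure.smul_apply, smul_eq_mul]
        gcongr
        exact hle A

end Helper16.CG
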